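import Mathlib

/-!
The weak Shanks conjecture fails on the bidisk.

For `f = (2 + z₁z₂)² (3 + 2z₁) (3 + 2z₂)`, which has no zeros in the closed bidisk, the optimal
approximant of index `2` of `1/f` in the Hardy space (from the span of `1, z₁, z₂`) is
`(32820 - 16536 (z₁ + z₂)) / 2599397`, which vanishes at `z₁ = z₂ = 2735/2756`.
-/

set_option autoImplicit false

namespace Pool.Agent.Results.MP_52e642_an.WeakShanksFails

open MvPolynomial

/-- The squared norm of a polynomial in the Hardy space `H²(𝔻²)`: the sum of the squared moduli of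
its coefficients. -/
noncomputable def normSq (g : MvPolynomial (Fin 2) ℂ) : ℝ := ∑ m ∈ g.support, ‖g.coeff m‖ ^ 2

/-- The position (counted from `0`) of the monomial `z₁^j z₂^k` in the degree-lexicographic
sequence `1, z₁, z₂, z₁², z₁z₂, z₂², z₁³, …`: there are `d (d + 1) / 2` monomials of total degree
less than `d = j + k`, and `z₁^j z₂^k` is preceded by `k` monomials of total degree `d`. -/
def position (m : Fin 2 →₀ ℕ) : ℕ := (m 0 + m 1) * (m 0 + m 1 + 1) / 2 + m 1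

/-- `P_n`, the span of the first `n + 1` monomials. -/
noncomputable def P (n : ℕ) : Submodule ℂ (MvPolynomial (Fin 2) ℂ) :=
  Submodule.span ℂ {p | ∃ m : Fin 2 →₀ ℕ, position m ≤ n ∧ p = monomial m 1}

/-- `q` is an `n`-th optimal polynomial approximant of `1/f` in `H²(𝔻²)`: it minimises
`‖p f - 1‖` over `p ∈ P_n`. -/
def IsOPA (f : MvPolynomial (Fin 2) ℂ) (n : ℕ) (q : MvPolynomial (Fin 2) ℂ) : Prop :=
  q ∈ P n ∧ ∀ p ∈ P n, normSq (q * f - 1) ≤ normSq (p * f - 1)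

/-- exponent vector -/
noncomputable def ex (x : ℕ × ℕ) : Fin 2 →₀ ℕ := Finsupp.single 0 x.1 + Finsupp.single 1 x.2

lemma ex_zero (x : ℕ × ℕ) : ex x 0 = x.1 := by simp [ex]
lemma ex_one (x : ℕ × ℕ) : ex x 1 = x.2 := by simp [ex]

lemma ex_inj {x y : ℕ × ℕ} (h : ex x = ex y) : x = y := by
  have h0 := congrArg (fun e => e 0) h
  have h1 := congrArg (fun e => e 1) h
  simp only [ex_zero, ex_one] at h0 h1
  exact Prod.ext h0 h1

lemma ex_surj (m : Fin 2 →₀ ℕ) : m = ex (m 0, m 1) := by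
  ext i
  fin_cases i
  · simp [ex]
  · simp [ex]

lemma monomial_ex (x : ℕ × ℕ) (c : ℂ) :
    monomial (ex x) c = C c * X 0 ^ x.1 * X 1 ^ x.2 := by
  rw [ex, monomial_add_single, ← mul_one c, ← C_mul_monomial]
  simp [X_pow_eq_monomial]

lemma normSq_sum (S : Finset (ℕ × ℕ)) (c : ℕ × ℕ → ℂ) :
    normSq (∑ x ∈ S, monomial (ex x) (c x)) = ∑ x ∈ S, ‖c x‖ ^ 2 := by
  classical
  have hcoeff : ∀ y, coeff (ex y) (∑ x ∈ S, monomial (ex x) (c x)) = if y ∈ S then c y else 0 := by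
    intro y
    rw [coeff_sum]
    simp only [coeff_monomial]
    by_cases hy : y ∈ S
    · rw [if_pos hy, Finset.sum_eq_single y]
      · simp
      · intro x _ hxy
        rw [if_neg (fun h => hxy (ex_inj h))]
      · intro h; exact absurd hy h
    · rw [if_neg hy, Finset.sum_eq_zero]
      intro x hx
      rw [if_neg]
      intro h
      exact hy (ex_inj h ▸ hx)
  have hsub : (∑ x ∈ S, monomial (ex x) (c x)).support ⊆ S.image ex := by
    intro m hm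
    rw [mem_support_iff] at hm
    rw [ex_surj m, hcoeff] at hm
    rw [Finset.mem_image]
    refine ⟨(m 0, m 1), ?_, (ex_surj m).symm⟩
    by_contra h
    rw [if_neg h] at hm
    exact hm rfl
  unfold normSq
  rw [Finset.sum_subset hsub, Finset.sum_image (fun x _ y _ h => ex_inj h)]
  · apply Finset.sum_congr rfl
    intro x hx
    rw [hcoeff, if_pos hx]
  · intro m _ hm
    rw [notMem_support_iff] at hm
    rw [hm]; simp

/-- the polynomial of the example -/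
noncomputable def f : MvPolynomial (Fin 2) ℂ :=
  (C 2 + X 0 * X 1) ^ 2 * (C 3 + C 2 * X 0) * (C 3 + C 2 * X 1)

/-- the exponents occurring in `p f - 1` -/
def S : Finset (ℕ × ℕ) :=
  {(0, 0), (0, 1), (0, 2), (1, 0), (1, 1), (1, 2), (1, 3), (2, 0), (2, 1), (2, 2), (2, 3), (2, 4),
    (3, 1), (3, 2), (3, 3), (3, 4), (4, 2), (4, 3)}

/-- the coefficients of `p f - 1` for `p = a + b z₁ + c z₂` -/
noncomputable def cf (a b c : ℂ) (x : ℕ × ℕ) : ℂ :=
  if x = (0, 0) then 36 * a - 1 else if x = (0, 1) then 24 * a + 36 * c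
  else if x = (0, 2) then 24 * c else if x = (1, 0) then 24 * a + 36 * b
  else if x = (1, 1) then 52 * a + 24 * b + 24 * c else if x = (1, 2) then 24 * a + 52 * c
  else if x = (1, 3) then 24 * c else if x = (2, 0) then 24 * b
  else if x = (2, 1) then 24 * a + 52 * b else if x = (2, 2) then 25 * a + 24 * b + 24 * c
  else if x = (2, 3) then 6 * a + 25 * c else if x = (2, 4) then 6 * c
  else if x = (3, 1) then 24 * b else if x = (3, 2) then 6 * a + 25 * b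
  else if x = (3, 3) then 4 * a + 6 * b + 6 * c else if x = (3, 4) then 4 * c
  else if x = (4, 2) then 6 * b else if x = (4, 3) then 4 * b else 0

/-- `a + b z₁ + c z₂` -/
noncomputable def lin (a b c : ℂ) : MvPolynomial (Fin 2) ℂ := C a + C b * X 0 + C c * X 1

lemma lin_mul (a b c : ℂ) : lin a b c * f - 1 = ∑ x ∈ S, monomial (ex x) (cf a b c x) := by
  have h1 : ∑ x ∈ S, monomial (ex x) (cf a b c x) =
      ∑ x ∈ S, C (cf a b c x) * X 0 ^ x.1 * X 1 ^ x.2 :=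
    Finset.sum_congr rfl fun x _ => monomial_ex x _
  rw [h1]
  simp only [S, cf, Finset.sum_insert, Finset.mem_insert, Finset.mem_singleton,
    Finset.sum_singleton, Prod.mk.injEq, OfNat.ofNat_ne_zero, and_false,
    not_false_eq_true, if_true, if_false, Nat.reduceEqDiff,
    OfNat.one_ne_ofNat, OfNat.ofNat_ne_one, zero_ne_one, one_ne_zero, OfNat.zero_ne_ofNat,
    and_true, or_self]
  simp only [lin, f, map_sub, map_add, map_mul, map_ofNat, map_one]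
  ring

lemma normSq_lin (a b c : ℂ) : normSq (lin a b c * f - 1) =
    ‖36 * a - 1‖ ^ 2 + (‖24 * a + 36 * c‖ ^ 2 + (‖24 * c‖ ^ 2 + (‖24 * a + 36 * b‖ ^ 2 +
    (‖52 * a + 24 * b + 24 * c‖ ^ 2 + (‖24 * a + 52 * c‖ ^ 2 + (‖24 * c‖ ^ 2 + (‖24 * b‖ ^ 2 +
    (‖24 * a + 52 * b‖ ^ 2 + (‖25 * a + 24 * b + 24 * c‖ ^ 2 + (‖6 * a + 25 * c‖ ^ 2 +
    (‖6 * c‖ ^ 2 + (‖24 * b‖ ^ 2 + (‖6 * a + 25 * b‖ ^ 2 + (‖4 * a + 6 * b + 6 * c‖ ^ 2 +
    (‖4 * c‖ ^ 2 + (‖6 * b‖ ^ 2 + ‖4 * b‖ ^ 2)))))))))))))))) := by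
  rw [lin_mul, normSq_sum]
  simp only [S, cf, Finset.sum_insert, Finset.mem_insert, Finset.mem_singleton,
    Finset.sum_singleton, Prod.mk.injEq, OfNat.ofNat_ne_zero, and_false,
    not_false_eq_true, if_true, if_false, Nat.reduceEqDiff,
    OfNat.one_ne_ofNat, OfNat.ofNat_ne_one, zero_ne_one, one_ne_zero, OfNat.zero_ne_ofNat,
    and_true, or_self]

/-- the coefficients of the optimal approximant -/
noncomputable def qa : ℝ := 32820 / 2599397
noncomputable def qb : ℝ := -16536 / 2599397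

/-- the difference of the squared norms is a sum of squares -/
lemma normSq_diff (a b c : ℂ) :
    normSq (lin a b c * f - 1) = normSq (lin (qa : ℂ) (qb : ℂ) (qb : ℂ) * f - 1) +
      (‖36 * (a - qa)‖ ^ 2 + ‖24 * (a - qa) + 36 * (c - qb)‖ ^ 2 + ‖24 * (c - qb)‖ ^ 2 +
        ‖24 * (a - qa) + 36 * (b - qb)‖ ^ 2 +
        ‖52 * (a - qa) + 24 * (b - qb) + 24 * (c - qb)‖ ^ 2 +
        ‖24 * (a - qa) + 52 * (c - qb)‖ ^ 2 + ‖24 * (c - qb)‖ ^ 2 + ‖24 * (b - qb)‖ ^ 2 +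
        ‖24 * (a - qa) + 52 * (b - qb)‖ ^ 2 +
        ‖25 * (a - qa) + 24 * (b - qb) + 24 * (c - qb)‖ ^ 2 +
        ‖6 * (a - qa) + 25 * (c - qb)‖ ^ 2 + ‖6 * (c - qb)‖ ^ 2 + ‖24 * (b - qb)‖ ^ 2 +
        ‖6 * (a - qa) + 25 * (b - qb)‖ ^ 2 +
        ‖4 * (a - qa) + 6 * (b - qb) + 6 * (c - qb)‖ ^ 2 + ‖4 * (c - qb)‖ ^ 2 +
        ‖6 * (b - qb)‖ ^ 2 + ‖4 * (b - qb)‖ ^ 2) := by
  rw [normSq_lin, normSq_lin]
  obtain ⟨a1, a2⟩ := a
  obtain ⟨b1, b2⟩ := b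
  obtain ⟨c1, c2⟩ := c
  simp only [Complex.sq_norm, Complex.normSq_apply, Complex.add_re, Complex.add_im,
    Complex.sub_re, Complex.sub_im, Complex.mul_re, Complex.mul_im, Complex.ofReal_re,
    Complex.ofReal_im, Complex.re_ofNat, Complex.im_ofNat, Complex.one_re, Complex.one_im]
  unfold qa qb
  ring

lemma lin_mem (a b c : ℂ) : lin a b c ∈ P 2 := by
  have h0 : (monomial (0 : Fin 2 →₀ ℕ) (1 : ℂ)) ∈ P 2 :=
    Submodule.subset_span ⟨0, by simp [position], rfl⟩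
  have h1 : (monomial (Finsupp.single (0 : Fin 2) 1) (1 : ℂ)) ∈ P 2 :=
    Submodule.subset_span ⟨_, by simp [position], rfl⟩
  have h2 : (monomial (Finsupp.single (1 : Fin 2) 1) (1 : ℂ)) ∈ P 2 :=
    Submodule.subset_span ⟨_, by simp [position], rfl⟩
  have h : lin a b c = a • monomial (0 : Fin 2 →₀ ℕ) (1 : ℂ) +
      b • monomial (Finsupp.single (0 : Fin 2) 1) (1 : ℂ) +
      c • monomial (Finsupp.single (1 : Fin 2) 1) (1 : ℂ) := by
    simp only [lin, smul_monomial, smul_eq_mul, mul_one]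
    rw [← C_mul_X_eq_monomial, ← C_mul_X_eq_monomial]
    rfl
  rw [h]
  exact add_mem (add_mem (Submodule.smul_mem _ _ h0) (Submodule.smul_mem _ _ h1))
    (Submodule.smul_mem _ _ h2)

lemma pos_le_two (m : Fin 2 →₀ ℕ) (hm : position m ≤ 2) :
    m = 0 ∨ m = Finsupp.single 0 1 ∨ m = Finsupp.single 1 1 := by
  have hs : m 0 + m 1 ≤ 1 := by
    by_contra h
    push Not at h
    have h1 : 3 ≤ (m 0 + m 1) * (m 0 + m 1 + 1) / 2 := by
      rw [Nat.le_div_iff_mul_le (by norm_num)]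
      have := Nat.mul_le_mul h (Nat.succ_le_succ h)
      have e : (m 0 + m 1) * (m 0 + m 1 + 1) = (m 0 + m 1) * (m 0 + m 1).succ := rfl
      omega
    unfold position at hm
    omega
  rcases Nat.eq_zero_or_pos (m 0) with h0 | h0
  · rcases Nat.eq_zero_or_pos (m 1) with h1 | h1
    · left
      ext i; fin_cases i
      · simpa using h0
      · simpa using h1
    · right; right
      ext i; fin_cases i
      · simpa using h0
      · simp; omega
  · right; left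
    ext i; fin_cases i
    · simp; omega
    · simp; omega

lemma mem_P_two {p : MvPolynomial (Fin 2) ℂ} (hp : p ∈ P 2) : ∃ a b c : ℂ, p = lin a b c := by
  unfold P at hp
  induction hp using Submodule.span_induction with
  | mem x hx =>
    obtain ⟨m, hm, rfl⟩ := hx
    rcases pos_le_two m hm with rfl | rfl | rfl
    · exact ⟨1, 0, 0, by simp [lin]⟩
    · exact ⟨0, 1, 0, by simp [lin, X]⟩
    · exact ⟨0, 0, 1, by simp [lin, X]⟩
  | zero => exact ⟨0, 0, 0, by simp [lin]⟩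
  | add x y _ _ hx hy =>
    obtain ⟨a, b, c, rfl⟩ := hx
    obtain ⟨a', b', c', rfl⟩ := hy
    exact ⟨a + a', b + b', c + c', by simp only [lin, map_add]; ring⟩
  | smul r x _ hx =>
    obtain ⟨a, b, c, rfl⟩ := hx
    refine ⟨r * a, r * b, r * c, ?_⟩
    simp only [lin, map_mul, smul_eq_C_mul]; ring

/-- `f` has no zeros in the closed bidisk. -/
lemma f_ne_zero (z : Fin 2 → ℂ) (h0 : ‖z 0‖ ≤ 1) (h1 : ‖z 1‖ ≤ 1) : eval z f ≠ 0 := by
  have hf : eval z f = (2 + z 0 * z 1) ^ 2 * (3 + 2 * z 0) * (3 + 2 * z 1) := by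
    simp [f]
  rw [hf]
  have hlin : ∀ w : ℂ, ‖w‖ ≤ 1 → (3 + 2 * w) ≠ 0 := by
    intro w hw h
    have h2 : (3 : ℂ) = -(2 * w) := by linear_combination h
    have h3 := congrArg norm h2
    rw [norm_neg, norm_mul] at h3
    norm_num at h3
    linarith
  have hprod : (2 + z 0 * z 1) ≠ 0 := by
    intro h
    have h2 : (2 : ℂ) = -(z 0 * z 1) := by linear_combination h
    have h3 := congrArg norm h2
    rw [norm_neg, norm_mul] at h3
    norm_num at h3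
    have h4 : ‖z 0‖ * ‖z 1‖ ≤ 1 := mul_le_one₀ h0 (norm_nonneg _) h1
    linarith
  exact mul_ne_zero (mul_ne_zero (pow_ne_zero _ hprod) (hlin _ h0)) (hlin _ h1)

/-- There is a polynomial `f` without zeros in the closed bidisk and an index `n` such that the
`n`-th optimal polynomial approximant of `1/f` in `H²(𝔻²)` (with respect to the
degree-lexicographic ordering) exists and has a zero in the open bidisk. -/
theorem result :
    ∃ (f : MvPolynomial (Fin 2) ℂ) (n : ℕ),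
      (∀ z : Fin 2 → ℂ, ‖z 0‖ ≤ 1 → ‖z 1‖ ≤ 1 → eval z f ≠ 0) ∧
      (∃ q, IsOPA f n q) ∧
      ∀ q, IsOPA f n q → ∃ z : Fin 2 → ℂ, ‖z 0‖ < 1 ∧ ‖z 1‖ < 1 ∧ eval z q = 0 := by
  refine ⟨f, 2, f_ne_zero, ⟨lin qa qb qb, lin_mem _ _ _, ?_⟩, ?_⟩
  · intro p hp
    obtain ⟨a, b, c, rfl⟩ := mem_P_two hp
    rw [normSq_diff a b c]
    have : 0 ≤ (‖36 * (a - qa)‖ ^ 2 + ‖24 * (a - qa) + 36 * (c - qb)‖ ^ 2 + ‖24 * (c - qb)‖ ^ 2 +
        ‖24 * (a - qa) + 36 * (b - qb)‖ ^ 2 +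
        ‖52 * (a - qa) + 24 * (b - qb) + 24 * (c - qb)‖ ^ 2 +
        ‖24 * (a - qa) + 52 * (c - qb)‖ ^ 2 + ‖24 * (c - qb)‖ ^ 2 + ‖24 * (b - qb)‖ ^ 2 +
        ‖24 * (a - qa) + 52 * (b - qb)‖ ^ 2 +
        ‖25 * (a - qa) + 24 * (b - qb) + 24 * (c - qb)‖ ^ 2 +
        ‖6 * (a - qa) + 25 * (c - qb)‖ ^ 2 + ‖6 * (c - qb)‖ ^ 2 + ‖24 * (b - qb)‖ ^ 2 +
        ‖6 * (a - qa) + 25 * (b - qb)‖ ^ 2 +
        ‖4 * (a - qa) + 6 * (b - qb) + 6 * (c - qb)‖ ^ 2 + ‖4 * (c - qb)‖ ^ 2 +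
        ‖6 * (b - qb)‖ ^ 2 + ‖4 * (b - qb)‖ ^ 2) := by positivity
    linarith
  · rintro q ⟨hq, hmin⟩
    obtain ⟨a, b, c, rfl⟩ := mem_P_two hq
    have h1 := hmin _ (lin_mem qa qb qb)
    rw [normSq_diff a b c] at h1
    have e1 : ‖36 * (a - qa)‖ ^ 2 = 0 := by
      apply le_antisymm _ (by positivity)
      have : 0 ≤ (‖24 * (a - qa) + 36 * (c - qb)‖ ^ 2 + ‖24 * (c - qb)‖ ^ 2 +
        ‖24 * (a - qa) + 36 * (b - qb)‖ ^ 2 +
        ‖52 * (a - qa) + 24 * (b - qb) + 24 * (c - qb)‖ ^ 2 +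
        ‖24 * (a - qa) + 52 * (c - qb)‖ ^ 2 + ‖24 * (c - qb)‖ ^ 2 + ‖24 * (b - qb)‖ ^ 2 +
        ‖24 * (a - qa) + 52 * (b - qb)‖ ^ 2 +
        ‖25 * (a - qa) + 24 * (b - qb) + 24 * (c - qb)‖ ^ 2 +
        ‖6 * (a - qa) + 25 * (c - qb)‖ ^ 2 + ‖6 * (c - qb)‖ ^ 2 + ‖24 * (b - qb)‖ ^ 2 +
        ‖6 * (a - qa) + 25 * (b - qb)‖ ^ 2 +
        ‖4 * (a - qa) + 6 * (b - qb) + 6 * (c - qb)‖ ^ 2 + ‖4 * (c - qb)‖ ^ 2 +
        ‖6 * (b - qb)‖ ^ 2 + ‖4 * (b - qb)‖ ^ 2) := by positivity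
      linarith
    have e2 : ‖24 * (c - qb)‖ ^ 2 = 0 := by
      apply le_antisymm _ (by positivity)
      have : 0 ≤ (‖36 * (a - qa)‖ ^ 2 + ‖24 * (a - qa) + 36 * (c - qb)‖ ^ 2 +
        ‖24 * (a - qa) + 36 * (b - qb)‖ ^ 2 +
        ‖52 * (a - qa) + 24 * (b - qb) + 24 * (c - qb)‖ ^ 2 +
        ‖24 * (a - qa) + 52 * (c - qb)‖ ^ 2 + ‖24 * (c - qb)‖ ^ 2 + ‖24 * (b - qb)‖ ^ 2 +
        ‖24 * (a - qa) + 52 * (b - qb)‖ ^ 2 +
        ‖25 * (a - qa) + 24 * (b - qb) + 24 * (c - qb)‖ ^ 2 +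
        ‖6 * (a - qa) + 25 * (c - qb)‖ ^ 2 + ‖6 * (c - qb)‖ ^ 2 + ‖24 * (b - qb)‖ ^ 2 +
        ‖6 * (a - qa) + 25 * (b - qb)‖ ^ 2 +
        ‖4 * (a - qa) + 6 * (b - qb) + 6 * (c - qb)‖ ^ 2 + ‖4 * (c - qb)‖ ^ 2 +
        ‖6 * (b - qb)‖ ^ 2 + ‖4 * (b - qb)‖ ^ 2) := by positivity
      linarith
    have e3 : ‖24 * (b - qb)‖ ^ 2 = 0 := by
      apply le_antisymm _ (by positivity)
      have : 0 ≤ (‖36 * (a - qa)‖ ^ 2 + ‖24 * (a - qa) + 36 * (c - qb)‖ ^ 2 + ‖24 * (c - qb)‖ ^ 2 +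
        ‖24 * (a - qa) + 36 * (b - qb)‖ ^ 2 +
        ‖52 * (a - qa) + 24 * (b - qb) + 24 * (c - qb)‖ ^ 2 +
        ‖24 * (a - qa) + 52 * (c - qb)‖ ^ 2 + ‖24 * (c - qb)‖ ^ 2 +
        ‖24 * (a - qa) + 52 * (b - qb)‖ ^ 2 +
        ‖25 * (a - qa) + 24 * (b - qb) + 24 * (c - qb)‖ ^ 2 +
        ‖6 * (a - qa) + 25 * (c - qb)‖ ^ 2 + ‖6 * (c - qb)‖ ^ 2 + ‖24 * (b - qb)‖ ^ 2 +
        ‖6 * (a - qa) + 25 * (b - qb)‖ ^ 2 +
        ‖4 * (a - qa) + 6 * (b - qb) + 6 * (c - qb)‖ ^ 2 + ‖4 * (c - qb)‖ ^ 2 +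
        ‖6 * (b - qb)‖ ^ 2 + ‖4 * (b - qb)‖ ^ 2) := by positivity
      linarith
    have ea : a = qa := by
      have := norm_eq_zero.1 (pow_eq_zero_iff (two_ne_zero) |>.1 e1)
      have h3 := (mul_eq_zero.1 this).resolve_left (by norm_num)
      exact sub_eq_zero.1 h3
    have ec : c = qb := by
      have := norm_eq_zero.1 (pow_eq_zero_iff (two_ne_zero) |>.1 e2)
      have h3 := (mul_eq_zero.1 this).resolve_left (by norm_num)
      exact sub_eq_zero.1 h3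
    have eb : b = qb := by
      have := norm_eq_zero.1 (pow_eq_zero_iff (two_ne_zero) |>.1 e3)
      have h3 := (mul_eq_zero.1 this).resolve_left (by norm_num)
      exact sub_eq_zero.1 h3
    have hnorm : ‖(((2735 / 2756 : ℝ)) : ℂ)‖ < 1 := by
      rw [Complex.norm_real]
      norm_num
    refine ⟨fun _ => ((2735 / 2756 : ℝ) : ℂ), hnorm, hnorm, ?_⟩
    rw [ea, eb, ec]
    simp only [lin, map_add, map_mul, eval_C, eval_X]
    unfold qa qb
    push_cast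
    norm_num

end Pool.Agent.Results.MP_52e642_an.WeakShanksFails
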